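import Mathlib
import Pool.Agent.Helper87.FK.Val

/-!
# OB: the residue field of the algebraic closure of `ℚ_p` is algebraically closed
-/

set_option autoImplicit false

namespace Pool.Agent.Helper46.OB

open Polynomial Pool.Agent.Helper87.FK

noncomputable section

/-- the residue field of the valuation ring of the algebraic closure of `ℚ_p` is algebraically closed -/
theorem algClosed_kk (p : ℕ) [Fact p.Prime] : IsAlgClosed (kk p) := by
  refine IsAlgClosed.of_exists_root _ fun P hP hirr => ?_
  have hsurj : Function.Surjective (Ideal.Quotient.mk (mm p)) := Ideal.Quotient.mk_surjective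
  have hl : P ∈ Polynomial.lifts (Ideal.Quotient.mk (mm p)) := by
    rw [Polynomial.lifts_iff_coeff_lifts]
    exact fun n => hsurj (P.coeff n)
  obtain ⟨Q, hQ, hdeg, hmon⟩ := Polynomial.lifts_and_degree_eq_and_monic hl hP
  have hd : (Q.map (algebraMap (Oc p) (PadicAlgCl p))).degree ≠ 0 := by
    rw [hmon.degree_map, hdeg]
    exact hirr.degree_pos.ne'
  obtain ⟨z, hz⟩ := IsAlgClosed.exists_root _ hd
  have hint : IsIntegral (Oc p) z := ⟨Q, hmon, by rwa [IsRoot.def, eval_map] at hz⟩
  have hzO : z ∈ Oc p := by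
    have h1 : IsIntegral ℤ_[p] z := isIntegral_trans z hint
    exact h1
  refine ⟨Ideal.Quotient.mk (mm p) ⟨z, hzO⟩, ?_⟩
  rw [← hQ, eval_map, eval₂_hom]
  have h2 : eval (⟨z, hzO⟩ : Oc p) Q = 0 := by
    apply Subtype.ext
    have h3 : ((eval (⟨z, hzO⟩ : Oc p) Q : Oc p) : PadicAlgCl p) =
        eval₂ (algebraMap (Oc p) (PadicAlgCl p)) z Q := by
      have h4 := (Polynomial.hom_eval₂ Q (RingHom.id (Oc p)) (algebraMap (Oc p) (PadicAlgCl p)) ⟨z, hzO⟩)
      rw [RingHom.comp_id] at h4
      exact h4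
    rw [h3]
    rw [IsRoot.def, eval_map] at hz
    exact hz
  rw [h2, map_zero]

end

end Pool.Agent.Helper46.OB
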