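import Mathlib
import Pool.Agent.Helper26.OB.Defs

/-!
# OB: residue degrees along an orbit over an algebraically closed field
-/

set_option autoImplicit false

namespace Pool.Agent.Helper46.OB

open Polynomial Pool.Agent.Helper61.TH Pool.Agent.Helper26.OB Function

noncomputable section

/-- homogeneous coordinates -/
def rep {κ : Type*} [Field κ] (P : Option κ) : Fin 2 → κ :=
  P.elim (fun i => if i = 0 then 1 else 0) (fun t i => if i = 0 then t else 1)

theorem rep_some {κ : Type*} [Field κ] (t : κ) : rep (some t) 0 = t ∧ rep (some t) 1 = 1 :=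
  ⟨rfl, rfl⟩

theorem rep_none {κ : Type*} [Field κ] : rep (none : Option κ) 0 = 1 ∧ rep (none : Option κ) 1 = 0 :=
  ⟨rfl, rfl⟩

theorem rep_ne {κ : Type*} [Field κ] (P : Option κ) : rep P ≠ 0 := by
  intro h
  cases P with
  | none =>
    have := congrFun h 0
    rw [rep_none.1] at this
    exact one_ne_zero this
  | some t =>
    have := congrFun h 1
    rw [(rep_some t).2] at this
    exact one_ne_zero this

theorem pr_rep {κ : Type*} [Field κ] (P : Option κ) : pr (rep P) = P := by
  classical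
  cases P with
  | none =>
    unfold pr
    rw [if_pos rep_none.2]
  | some t =>
    unfold pr
    rw [if_neg (by rw [(rep_some t).2]; exact one_ne_zero), (rep_some t).1, (rep_some t).2, div_one]

theorem exists_scale {κ : Type*} [Field κ] (x : Fin 2 → κ) (hx : x ≠ 0) :
    ∃ l : κ, l ≠ 0 ∧ x = fun i => l * rep (pr x) i := by
  classical
  by_cases h1 : x 1 = 0
  · have h0 : x 0 ≠ 0 := by
      intro h0
      apply hx
      funext i
      fin_cases i
      · exact h0
      · exact h1
    refine ⟨x 0, h0, ?_⟩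
    have hp : pr x = none := by
      unfold pr
      rw [if_pos h1]
    rw [hp]
    funext i
    fin_cases i
    · change x 0 = x 0 * rep (none : Option κ) 0
      rw [rep_none.1, mul_one]
    · change x 1 = x 0 * rep (none : Option κ) 1
      rw [rep_none.2, mul_zero, h1]
  · refine ⟨x 1, h1, ?_⟩
    have hp : pr x = some (x 0 / x 1) := by
      unfold pr
      rw [if_neg h1]
    rw [hp]
    funext i
    fin_cases i
    · change x 0 = x 1 * rep (some (x 0 / x 1)) 0
      rw [(rep_some _).1, mul_div_cancel₀ _ h1]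
    · change x 1 = x 1 * rep (some (x 0 / x 1)) 1
      rw [(rep_some _).2, mul_one]

theorem pr_scale {κ : Type*} [Field κ] (x : Fin 2 → κ) (l : κ) (hl : l ≠ 0) :
    pr (fun i => l * x i) = pr x := by
  classical
  unfold pr
  by_cases h1 : x 1 = 0
  · rw [if_pos (by simp only; rw [h1, mul_zero]), if_pos h1]
  · rw [if_neg (by simp only; exact mul_ne_zero hl h1), if_neg h1]
    simp only
    rw [mul_div_mul_left _ _ hl]

theorem ev_scale {κ : Type*} [Field κ] {s : ℕ} {d : Fin s → ℕ} (c : Idx d → κ) (a : Fin s)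
    (x : Fin 2 → κ) (l : κ) :
    ev (form c a) (fun i => l * x i) = fun i => l ^ d a * ev (form c a) x i := by
  funext i
  unfold ev
  rw [eval_form, eval_form, Finset.mul_sum]
  refine Finset.sum_congr rfl fun j _ => ?_
  have h1 : l ^ d a = l ^ (j : ℕ) * l ^ (d a - j) := by
    rw [← pow_add]
    congr 1
    have := j.2
    omega
  rw [mul_pow, mul_pow, h1]
  ring

theorem pr_frob {κ : Type*} [Field κ] (p : ℕ) [hp : Fact p.Prime] [CharP κ p] (x : Fin 2 → κ) :
    pr (fun i => x i ^ p) = Option.map (frobenius κ p) (pr x) := by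
  classical
  unfold pr
  by_cases h1 : x 1 = 0
  · rw [if_pos (by simp only; rw [h1, zero_pow hp.out.ne_zero]), if_pos h1]
    rfl
  · rw [if_neg (by simp only; exact pow_ne_zero _ h1), if_neg h1, Option.map_some, frobenius_def,
      div_pow]

theorem ev_frob {κ : Type*} [Field κ] (p : ℕ) [hp : Fact p.Prime] [CharP κ p] {s : ℕ}
    {d : Fin s → ℕ} (c : Idx d → κ) (hc : ∀ q, c q ^ p = c q) (a : Fin s) (x : Fin 2 → κ) :
    ev (form c a) (fun i => x i ^ p) = fun i => ev (form c a) x i ^ p := by
  funext i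
  unfold ev
  rw [eval_form, eval_form]
  have h0 := map_sum (frobenius κ p)
    (fun j : Fin (d a + 1) => c ⟨a, (i, j)⟩ * x 0 ^ (j : ℕ) * x 1 ^ (d a - j)) Finset.univ
  rw [frobenius_def] at h0
  rw [h0]
  refine Finset.sum_congr rfl fun j _ => ?_
  rw [map_mul, map_mul, map_pow, map_pow, frobenius_def, frobenius_def, frobenius_def, hc]

/-- the map of the projective line -/
def gg {κ : Type*} [Field κ] {s : ℕ} {d : Fin s → ℕ} (c : Idx d → κ) (a : Fin s)
    (P : Option κ) : Option κ := pr (ev (form c a) (rep P))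

theorem gg_pr {κ : Type*} [Field κ] {s : ℕ} {d : Fin s → ℕ} (c : Idx d → κ) (a : Fin s)
    (x : Fin 2 → κ) (hx : x ≠ 0) : gg c a (pr x) = pr (ev (form c a) x) := by
  obtain ⟨l, hl, h⟩ := exists_scale x hx
  rw [gg]
  have h2 : ev (form c a) x = fun i => l ^ d a * ev (form c a) (rep (pr x)) i := by
    conv_lhs => rw [h]
    exact ev_scale c a _ l
  rw [h2, pr_scale _ _ (pow_ne_zero _ hl)]

theorem gg_frob {κ : Type*} [Field κ] (p : ℕ) [hp : Fact p.Prime] [CharP κ p] {s : ℕ}
    {d : Fin s → ℕ} (c : Idx d → κ) (hc : ∀ q, c q ^ p = c q) (a : Fin s) :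
    Function.Semiconj (gg c a) (Option.map (frobenius κ p)) (Option.map (frobenius κ p)) := by
  intro P
  have h1 : Option.map (frobenius κ p) P = pr (fun i => rep P i ^ p) := by
    rw [pr_frob, pr_rep]
  have h2 : (fun i => rep P i ^ p) ≠ 0 := by
    intro h
    apply rep_ne P
    funext i
    exact pow_eq_zero_iff hp.out.ne_zero |>.1 (congrFun h i)
  rw [h1, gg_pr c a _ h2, ev_frob p c hc, pr_frob]
  rfl

/-- the polynomial of the fibre -/
def fib {κ : Type*} [Field κ] {s : ℕ} {d : Fin s → ℕ} (c : Idx d → κ) (a : Fin s)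
    (q : Fin 2 → κ) : κ[X] :=
  ∑ j : Fin (d a + 1), C (q 1 * c ⟨a, (0, j)⟩ - q 0 * c ⟨a, (1, j)⟩) * X ^ (j : ℕ)

theorem fib_coeff {κ : Type*} [Field κ] {s : ℕ} {d : Fin s → ℕ} (c : Idx d → κ) (a : Fin s)
    (q : Fin 2 → κ) (j : Fin (d a + 1)) :
    (fib c a q).coeff j = q 1 * c ⟨a, (0, j)⟩ - q 0 * c ⟨a, (1, j)⟩ := by
  classical
  rw [fib, finsetSum_coeff, Finset.sum_eq_single j]
  · rw [coeff_C_mul, coeff_X_pow, if_pos rfl, mul_one]
  · intro b _ hb
    rw [coeff_C_mul, coeff_X_pow, if_neg, mul_zero]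
    intro h
    exact hb (Fin.ext h.symm)
  · intro h
    exact absurd (Finset.mem_univ _) h

theorem fib_natDegree {κ : Type*} [Field κ] {s : ℕ} {d : Fin s → ℕ} (c : Idx d → κ) (a : Fin s)
    (q : Fin 2 → κ) : (fib c a q).natDegree ≤ d a := by
  rw [fib]
  refine natDegree_sum_le_of_forall_le _ _ fun j _ => ?_
  refine (natDegree_C_mul_X_pow_le _ _).trans ?_
  have := j.2
  omega

theorem fib_eval {κ : Type*} [Field κ] {s : ℕ} {d : Fin s → ℕ} (c : Idx d → κ) (a : Fin s)
    (q : Fin 2 → κ) (t : κ) : (fib c a q).eval t =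
      q 1 * ev (form c a) (rep (some t)) 0 - q 0 * ev (form c a) (rep (some t)) 1 := by
  unfold ev
  rw [eval_form, eval_form, fib, eval_finsetSum, Finset.mul_sum, Finset.mul_sum,
    ← Finset.sum_sub_distrib]
  refine Finset.sum_congr rfl fun j _ => ?_
  rw [(rep_some t).1, (rep_some t).2, one_pow]
  simp only [eval_mul, eval_C, eval_pow, eval_X]
  ring

theorem ev_none {κ : Type*} [Field κ] {s : ℕ} {d : Fin s → ℕ} (c : Idx d → κ) (a : Fin s)
    (i : Fin 2) : ev (form c a) (rep (none : Option κ)) i = c ⟨a, (i, Fin.last (d a))⟩ := by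
  unfold ev
  rw [eval_form, Finset.sum_eq_single (Fin.last (d a))]
  · rw [rep_none.1, rep_none.2]
    simp
  · intro b _ hb
    rw [rep_none.2, zero_pow, mul_zero]
    intro h
    apply hb
    apply Fin.ext
    rw [Fin.val_last]
    have := b.2
    omega
  · intro h
    exact absurd (Finset.mem_univ _) h

theorem fib_ne {κ : Type*} [Field κ] [IsAlgClosed κ] {s : ℕ} {d : Fin s → ℕ} (c : Idx d → κ)
    (a : Fin s) (hd1 : 1 ≤ d a) (hgood : ∀ x : Fin 2 → κ, x ≠ 0 → ev (form c a) x ≠ 0)
    (q : Fin 2 → κ) (hq : q ≠ 0) : fib c a q ≠ 0 := by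
  intro h0
  -- a common zero
  have key : ∀ i : Fin 2, (∀ r : Fin 2 → κ, ev (form c a) r i = 0 → ev (form c a) r = 0) → False := by
    intro i hi
    by_cases hlast : c ⟨a, (i, Fin.last (d a))⟩ = 0
    · exact hgood _ (rep_ne none) (hi _ (by rw [ev_none]; exact hlast))
    · let e : Fin 2 → κ := if i = 0 then (fun j => if j = 0 then 0 else 1) else
        (fun j => if j = 0 then -1 else 0)
      have he : ∀ j, (fib c a e).coeff (j : Fin (d a + 1)) = c ⟨a, (i, j)⟩ := by
        intro j
        rw [fib_coeff]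
        fin_cases i
        · simp [e]
        · simp [e]
      have hev : ∀ t, (fib c a e).eval t = ev (form c a) (rep (some t)) i := by
        intro t
        rw [fib_eval]
        fin_cases i
        · simp [e]
        · simp [e]
      have hdeg : (fib c a e).degree ≠ 0 := by
        intro h
        have h1 : (fib c a e).natDegree = 0 := natDegree_eq_of_degree_eq_some h
        have h2 := he (Fin.last (d a))
        rw [Fin.val_last, coeff_eq_zero_of_natDegree_lt (by omega)] at h2
        exact hlast h2.symm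
      obtain ⟨t, ht⟩ := IsAlgClosed.exists_root _ hdeg
      rw [IsRoot.def, hev] at ht
      exact hgood _ (rep_ne (some t)) (hi _ ht)
  have hlin : ∀ r : Fin 2 → κ, q 1 * ev (form c a) r 0 = q 0 * ev (form c a) r 1 := by
    intro r
    unfold ev
    rw [eval_form, eval_form, Finset.mul_sum, Finset.mul_sum]
    refine Finset.sum_congr rfl fun j _ => ?_
    have h1 := fib_coeff c a q j
    rw [h0, coeff_zero] at h1
    have h2 : q 1 * c ⟨a, (0, j)⟩ = q 0 * c ⟨a, (1, j)⟩ := (sub_eq_zero.1 h1.symm)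
    rw [← mul_assoc, ← mul_assoc, h2, ← mul_assoc, ← mul_assoc]
  by_cases hq1 : q 1 = 0
  · have hq0 : q 0 ≠ 0 := by
      intro hq0
      apply hq
      funext i
      fin_cases i
      · exact hq0
      · exact hq1
    refine key 0 fun r hr => ?_
    have h1 := hlin r
    rw [hq1, zero_mul] at h1
    funext i
    fin_cases i
    · exact hr
    · exact (mul_eq_zero.1 h1.symm).resolve_left hq0
  · refine key 1 fun r hr => ?_
    have h1 := hlin r
    rw [hr, mul_zero] at h1
    funext i
    fin_cases i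
    · exact (mul_eq_zero.1 h1).resolve_left hq1
    · exact hr

theorem prop_of_pr {κ : Type*} [Field κ] (x q : Fin 2 → κ) (hx : x ≠ 0) (hq : q ≠ 0)
    (h : pr x = pr q) : q 1 * x 0 - q 0 * x 1 = 0 := by
  obtain ⟨l, -, hl⟩ := exists_scale x hx
  obtain ⟨m, -, hm⟩ := exists_scale q hq
  rw [h] at hl
  have h0 := congrFun hl 0
  have h1 := congrFun hl 1
  have h2 := congrFun hm 0
  have h3 := congrFun hm 1
  have e1 : q 1 * x 0 - q 0 * x 1 =
      (m * rep (pr q) 1) * (l * rep (pr q) 0) - (m * rep (pr q) 0) * (l * rep (pr q) 1) := by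
    rw [← h0, ← h1, ← h2, ← h3]
  rw [e1]
  ring

/-- the fibres have at most `d a` points -/
theorem fibre {κ : Type*} [Field κ] [IsAlgClosed κ] {s : ℕ} {d : Fin s → ℕ} (c : Idx d → κ)
    (a : Fin s) (hd1 : 1 ≤ d a) (hgood : ∀ x : Fin 2 → κ, x ≠ 0 → ev (form c a) x ≠ 0)
    (Q : Option κ) : ∃ F : Finset (Option κ), F.card ≤ d a ∧ ∀ P, gg c a P = Q → P ∈ F := by
  classical
  have hne := fib_ne c a hd1 hgood (rep Q) (rep_ne Q)
  have hmem : ∀ P, gg c a P = Q →
      rep Q 1 * ev (form c a) (rep P) 0 - rep Q 0 * ev (form c a) (rep P) 1 = 0 := by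
    intro P hP
    refine prop_of_pr _ _ (hgood _ (rep_ne P)) (rep_ne Q) ?_
    rw [pr_rep]
    exact hP
  have hroot : ∀ t : κ, gg c a (some t) = Q → t ∈ (fib c a (rep Q)).roots.toFinset := by
    intro t ht
    rw [Multiset.mem_toFinset, mem_roots hne, IsRoot.def, fib_eval]
    exact hmem _ ht
  have hcard : (fib c a (rep Q)).roots.toFinset.card ≤ (fib c a (rep Q)).natDegree :=
    (Multiset.toFinset_card_le _).trans (card_roots' _)
  by_cases hinf : gg c a none = Q
  · have hc0 : (fib c a (rep Q)).coeff (d a) = 0 := by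
      have h1 := hmem none hinf
      rw [ev_none, ev_none] at h1
      have h2 := fib_coeff c a (rep Q) (Fin.last (d a))
      rw [Fin.val_last] at h2
      rw [h2, h1]
    have hlt : (fib c a (rep Q)).natDegree < d a := by
      refine lt_of_le_of_ne (fib_natDegree c a _) fun h => ?_
      have : (fib c a (rep Q)).leadingCoeff = 0 := by rw [leadingCoeff, h, hc0]
      exact hne (leadingCoeff_eq_zero.1 this)
    refine ⟨insert none ((fib c a (rep Q)).roots.toFinset.image some), ?_, ?_⟩
    · refine (Finset.card_insert_le _ _).trans ?_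
      have := (Finset.card_image_le (s := (fib c a (rep Q)).roots.toFinset) (f := some))
      omega
    · intro P hP
      cases P with
      | none => exact Finset.mem_insert_self _ _
      | some t => exact Finset.mem_insert_of_mem (Finset.mem_image_of_mem _ (hroot t hP))
  · refine ⟨(fib c a (rep Q)).roots.toFinset.image some, ?_, ?_⟩
    · have := (Finset.card_image_le (s := (fib c a (rep Q)).roots.toFinset) (f := some))
      have := fib_natDegree c a (rep Q)
      omega
    · intro P hP
      cases P with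
      | none => exact absurd hP hinf
      | some t => exact Finset.mem_image_of_mem _ (hroot t hP)

/-- periods in the fibres of a semiconjugation -/
theorem period_fibre {α : Type*} {f g : α → α} (hf : Function.Injective f)
    (hsc : Function.Semiconj g f f) (P : α) (F : Finset α)
    (hF : ∀ R, g R = g P → R ∈ F) :
    ∃ e, 1 ≤ e ∧ (e ≤ F.card) ∧ minimalPeriod f P = e * minimalPeriod f (g P) := by
  classical
  have hP : P ∈ F := hF P rfl
  have hcard : 1 ≤ F.card := Finset.card_pos.2 ⟨P, hP⟩
  have hiter : ∀ n, g (f^[n] P) = f^[n] (g P) := fun n => (hsc.iterate_right n) P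
  rcases Nat.eq_zero_or_pos (minimalPeriod f (g P)) with hm | hm
  · refine ⟨1, le_refl _, hcard, ?_⟩
    rw [hm, mul_zero]
    by_contra h
    have hpos : 0 < minimalPeriod f P := Nat.pos_of_ne_zero h
    have h1 : f^[minimalPeriod f P] (g P) = g P := by
      rw [← hiter, iterate_minimalPeriod]
    have h2 : 0 < minimalPeriod f (g P) := minimalPeriod_pos_of_mem_periodicPts ⟨_, hpos, h1⟩
    omega
  · set m := minimalPeriod f (g P) with hmdef
    have hfm : f^[m] (g P) = g P := iterate_minimalPeriod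
    set h := f^[m] with hh
    have hinj : Function.Injective h := hf.iterate m
    -- the orbit of `P` under `h` lies in `F`
    have hgm : ∀ k, f^[m * k] (g P) = g P := by
      intro k
      have : IsPeriodicPt f (m * k) (g P) := (isPeriodicPt_minimalPeriod f (g P)).mul_const k
      exact this
    have horb : ∀ k, h^[k] P ∈ F := by
      intro k
      apply hF
      rw [hh, ← iterate_mul, hiter, hgm]
    obtain ⟨i, hi, j, hj, hij, heq⟩ : ∃ i ∈ Finset.range (F.card + 1), ∃ j ∈ Finset.range (F.card + 1),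
        i ≠ j ∧ h^[i] P = h^[j] P := by
      refine Finset.exists_ne_map_eq_of_card_lt_of_maps_to (t := F) ?_ fun k _ => horb k
      rw [Finset.card_range]
      exact Nat.lt_succ_self _
    rw [Finset.mem_range] at hi hj
    -- a period
    obtain ⟨k, hk1, hk2, hk3⟩ : ∃ k, 1 ≤ k ∧ k ≤ F.card ∧ IsPeriodicPt h k P := by
      rcases lt_or_gt_of_ne hij with hlt | hlt
      · refine ⟨j - i, by omega, by omega, ?_⟩
        apply hinj.iterate i
        rw [← iterate_add_apply]
        have : i + (j - i) = j := by omega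
        rw [this, heq]
      · refine ⟨i - j, by omega, by omega, ?_⟩
        apply hinj.iterate j
        rw [← iterate_add_apply]
        have : j + (i - j) = i := by omega
        rw [this, heq]
    refine ⟨minimalPeriod h P, ?_, ?_, ?_⟩
    · exact minimalPeriod_pos_of_mem_periodicPts ⟨k, hk1, hk3⟩
    · exact (hk3.minimalPeriod_le hk1).trans hk2
    · apply Nat.dvd_antisymm
      · apply IsPeriodicPt.minimalPeriod_dvd
        change f^[minimalPeriod h P * m] P = P
        rw [mul_comm, iterate_mul]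
        exact iterate_minimalPeriod
      · have h1 : IsPeriodicPt f (minimalPeriod f P) (g P) := by
          change f^[minimalPeriod f P] (g P) = g P
          rw [← hiter, iterate_minimalPeriod]
        obtain ⟨n', hn'⟩ := h1.minimalPeriod_dvd
        rw [← hmdef] at hn'
        have h2 : IsPeriodicPt h n' P := by
          change h^[n'] P = P
          rw [hh, ← iterate_mul, ← hn', iterate_minimalPeriod]
        obtain ⟨n'', hn''⟩ := h2.minimalPeriod_dvd
        rw [hn']
        exact ⟨n'', by rw [hn'']; ring⟩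

/-- one letter -/
theorem letter {κ : Type*} [Field κ] [IsAlgClosed κ] (p : ℕ) [Fact p.Prime] [CharP κ p] {s : ℕ}
    {d : Fin s → ℕ} (c : Idx d → κ) (hc : ∀ q, c q ^ p = c q) (a : Fin s) (hd1 : 1 ≤ d a)
    (hgood : ∀ x : Fin 2 → κ, x ≠ 0 → ev (form c a) x ≠ 0) (x : Fin 2 → κ) (hx : x ≠ 0) :
    ∃ e, 1 ≤ e ∧ e ≤ d a ∧
      ol (frobenius κ p) x = e * ol (frobenius κ p) (ev (form c a) x) := by
  obtain ⟨F, hF1, hF2⟩ := fibre c a hd1 hgood (gg c a (pr x))
  obtain ⟨e, he1, he2, he3⟩ := period_fibre (f := Option.map (frobenius κ p)) (g := gg c a)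
    (Option.map_injective (frobenius_inj κ p)) (gg_frob p c hc a) (pr x) F hF2
  refine ⟨e, he1, he2.trans hF1, ?_⟩
  rw [gg_pr c a x hx] at he3
  exact he3

/-- **F1**: residue degrees along an orbit -/
theorem resdeg {κ : Type*} [Field κ] [IsAlgClosed κ] (p : ℕ) [Fact p.Prime] [CharP κ p] {s : ℕ}
    {d : Fin s → ℕ} (D : ℕ) (hd1 : ∀ a, 1 ≤ d a) (hD : ∀ a, d a ≤ D) (c : Idx d → κ)
    (hc : ∀ q, c q ^ p = c q) (hgood : ∀ a (x : Fin 2 → κ), x ≠ 0 → ev (form c a) x ≠ 0)
    (w : List (Fin s)) (x : Fin 2 → κ) (hx : x ≠ 0) :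
    ∃ e, 1 ≤ e ∧ Smooth D e ∧ ol (frobenius κ p) x = e * ol (frobenius κ p) (ev (word c w) x) := by
  suffices h : ∃ e, 1 ≤ e ∧ Smooth D e ∧
      ol (frobenius κ p) x = e * ol (frobenius κ p) (ev (word c w) x) ∧ ev (word c w) x ≠ 0 by
    obtain ⟨e, h1, h2, h3, -⟩ := h
    exact ⟨e, h1, h2, h3⟩
  induction w with
  | nil =>
    refine ⟨1, le_refl _, ?_, ?_, ?_⟩
    · intro r hr h
      rw [Nat.dvd_one] at h
      exact absurd h hr.ne_one
    · rw [ev_word_nil, one_mul]
    · rwa [ev_word_nil]
  | cons a w ih =>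
    obtain ⟨e, h1, h2, h3, h4⟩ := ih
    obtain ⟨e', g1, g2, g3⟩ := letter p c hc a (hd1 a) (hgood a) _ h4
    refine ⟨e * e', Nat.mul_pos h1 g1, ?_, ?_, ?_⟩
    · intro r hr h
      rcases (Nat.Prime.dvd_mul hr).1 h with h5 | h5
      · exact h2 r hr h5
      · exact (Nat.le_of_dvd g1 h5).trans (g2.trans (hD a))
    · rw [ev_word_cons, h3, g3, mul_assoc]
    · rw [ev_word_cons]
      exact hgood a _ h4

end

end Pool.Agent.Helper46.OB
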