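import Mathlib
import Pool.Agent.Helper46.OB.ResDeg

/-!
# OB: orbit lengths under an endomorphism of the field which fixes the coefficients
-/

set_option autoImplicit false

namespace Pool.Agent.Helper46.OB

open Polynomial Pool.Agent.Helper61.TH Pool.Agent.Helper26.OB Function

noncomputable section

theorem pr_map {κ : Type*} [Field κ] (σ : κ →+* κ) (x : Fin 2 → κ) :
    pr (fun i => σ (x i)) = Option.map σ (pr x) := by
  classical
  unfold pr
  by_cases h1 : x 1 = 0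
  · rw [if_pos (by simp only; rw [h1, map_zero]), if_pos h1]
    rfl
  · rw [if_neg (by simp only; exact (map_ne_zero σ).2 h1), if_neg h1, Option.map_some, map_div₀]

theorem ev_map {κ : Type*} [Field κ] (σ : κ →+* κ) {s : ℕ} {d : Fin s → ℕ} (c : Idx d → κ)
    (hc : ∀ q, σ (c q) = c q) (a : Fin s) (x : Fin 2 → κ) :
    ev (form c a) (fun i => σ (x i)) = fun i => σ (ev (form c a) x i) := by
  funext i
  unfold ev
  rw [eval_form, eval_form, map_sum]
  refine Finset.sum_congr rfl fun j _ => ?_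
  rw [map_mul, map_mul, map_pow, map_pow, hc]

theorem gg_map {κ : Type*} [Field κ] (σ : κ →+* κ) {s : ℕ} {d : Fin s → ℕ} (c : Idx d → κ)
    (hc : ∀ q, σ (c q) = c q) (a : Fin s) :
    Function.Semiconj (gg c a) (Option.map σ) (Option.map σ) := by
  intro P
  have h1 : Option.map σ P = pr (fun i => σ (rep P i)) := by
    rw [pr_map, pr_rep]
  have h2 : (fun i => σ (rep P i)) ≠ 0 := by
    intro h
    apply rep_ne P
    funext i
    exact (map_eq_zero σ).1 (congrFun h i)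
  rw [h1, gg_pr c a _ h2, ev_map σ c hc, pr_map]
  rfl

/-- one letter -/
theorem letter' {κ : Type*} [Field κ] [IsAlgClosed κ] (σ : κ →+* κ) {s : ℕ}
    {d : Fin s → ℕ} (c : Idx d → κ) (hc : ∀ q, σ (c q) = c q) (a : Fin s) (hd1 : 1 ≤ d a)
    (hgood : ∀ x : Fin 2 → κ, x ≠ 0 → ev (form c a) x ≠ 0) (x : Fin 2 → κ) (hx : x ≠ 0) :
    ∃ e, 1 ≤ e ∧ e ≤ d a ∧ ol σ x = e * ol σ (ev (form c a) x) := by
  obtain ⟨F, hF1, hF2⟩ := fibre c a hd1 hgood (gg c a (pr x))
  obtain ⟨e, he1, he2, he3⟩ := period_fibre (f := Option.map σ) (g := gg c a)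
    (Option.map_injective σ.injective) (gg_map σ c hc a) (pr x) F hF2
  refine ⟨e, he1, he2.trans hF1, ?_⟩
  rw [gg_pr c a x hx] at he3
  exact he3

/-- **F1'**: orbit lengths under any endomorphism of the field which fixes the coefficients -/
theorem resdeg' {κ : Type*} [Field κ] [IsAlgClosed κ] (σ : κ →+* κ) {s : ℕ} {d : Fin s → ℕ} (D : ℕ)
    (hd1 : ∀ a, 1 ≤ d a) (hD : ∀ a, d a ≤ D) (c : Idx d → κ) (hc : ∀ q, σ (c q) = c q)
    (hgood : ∀ a (x : Fin 2 → κ), x ≠ 0 → ev (form c a) x ≠ 0) (w : List (Fin s)) (x : Fin 2 → κ)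
    (hx : x ≠ 0) :
    ∃ e, 1 ≤ e ∧ Smooth D e ∧ ol σ x = e * ol σ (ev (word c w) x) := by
  suffices h : ∃ e, 1 ≤ e ∧ Smooth D e ∧
      ol σ x = e * ol σ (ev (word c w) x) ∧ ev (word c w) x ≠ 0 by
    obtain ⟨e, h1, h2, h3, -⟩ := h
    exact ⟨e, h1, h2, h3⟩
  induction w with
  | nil =>
    refine ⟨1, le_refl _, ?_, ?_, ?_⟩
    · intro r hr h
      rw [Nat.dvd_one] at h
      exact absurd h hr.ne_one
    · rw [ev_word_nil, one_mul]
    · rwa [ev_word_nil]
  | cons a w ih =>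
    obtain ⟨e, h1, h2, h3, h4⟩ := ih
    obtain ⟨e', g1, g2, g3⟩ := letter' σ c hc a (hd1 a) (hgood a) _ h4
    refine ⟨e * e', Nat.mul_pos h1 g1, ?_, ?_, ?_⟩
    · intro r hr h
      rcases (Nat.Prime.dvd_mul hr).1 h with h5 | h5
      · exact h2 r hr h5
      · exact (Nat.le_of_dvd g1 h5).trans (g2.trans (hD a))
    · rw [ev_word_cons, h3, g3, mul_assoc]
    · rw [ev_word_cons]
      exact hgood a _ h4

end

end Pool.Agent.Helper46.OB
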