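import Pool.Agent.Helper46.OB.N1S
import Pool.Agent.Helper87.OB.N1R

/-!
# Project OB (MP_0f6f3f_an), layer TZ, node 1: the geometry

`geo1 : Geo (GJ hN q) (OJ (JP N)) (KO (JP N))`, `(q : ℕ) = 0`: `Q = QJ` (the stabiliser of the isotropic line), the block map `nb1`, `K` = the orthogonal elements, the decomposition `exists_dec`.
-/

set_option autoImplicit false
set_option linter.unusedSectionVars false

open Filter Topology Matrix

namespace Pool.Agent.Helper46.OB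

open Pool.Agent.Helper90.RK Pool.Agent.Helper84.NI Pool.Agent.Helper78.BI Pool.Agent.Helper55.OB Pool.Agent.Helper9
open Pool.Agent.Helper35.FP Pool.Agent.Helper55.TZ Pool.Agent.Helper84.OB
open Pool.Agent.Helper87.OB hiding Ef_E2 E2_Ef Ef_Em Em_Ef E2_Em Em_E2 Em_Em JJ_Em Ee_E2 E2_Ee Em_Ee Ee_Em
open Pool.Agent.Helper87.OB1 (exists_dec)

variable {N : ℕ} (hN : 5 ≤ N) {q : Fin N} (hq : (q : ℕ) = 0)

/-- The triangular part. -/
noncomputable def r1 : GJ hN q → QJ hN q := (exists_dec hN hq).choose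

theorem continuous_r1 : Continuous (r1 hN hq) := (exists_dec hN hq).choose_spec.1

theorem kr_1 (x : GJ hN q) : x * (r1 hN hq x : GJ hN q)⁻¹ ∈ prJ hN q '' UJ hN := (exists_dec hN hq).choose_spec.2 x

theorem KK_1 {g g' : GJ hN q} (hg : g ∈ prJ hN q '' UJ hN) (hg' : g' ∈ prJ hN q '' UJ hN) (x : QJ hN q) (h : g = g' * x) :
    nb1 hN hq x ∈ KO (JP N) := by
  obtain ⟨u, hu, rfl⟩ := hg
  obtain ⟨u', hu', rfl⟩ := hg'
  obtain ⟨y, rfl⟩ := prQJ_surj hN q x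
  have h1 : (sr q).pr (u : (sr q).M) = (sr q).pr ((u' : (sr q).M) * (y : (sr q).M)) := by
    have h2 := congrArg Subtype.val h
    rw [map_mul]
    exact h2
  have hz : ((u' : (sr q).M) * (y : (sr q).M))⁻¹ * (u : (sr q).M) ∈ (sr q).Z0 := QuotientGroup.eq.1 h1.symm
  obtain ⟨z, hz'⟩ : ∃ z : HQ hN q, (z : (sr q).M) = ((u' : (sr q).M) * (y : (sr q).M))⁻¹ * (u : (sr q).M) :=
    ⟨⟨_, Z0_le_HQ hN q hz⟩, rfl⟩
  have h3 : nbl1 hN hq z = 1 := nbl1_Z0 hN hq (by rw [hz']; exact hz)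
  have h4 : ((y * z : HQ hN q) : (sr q).M) = (u' : (sr q).M)⁻¹ * (u : (sr q).M) := by
    rw [Subgroup.coe_mul, hz']
    group
  have h5 : IsU ((sr q).mt ((y * z : HQ hN q) : (sr q).M)) := by
    rw [h4]
    have a1 : ((sr q).mt (u : (sr q).M))ᴴ * (sr q).mt (u : (sr q).M) = 1 := hu
    have a2 : ((sr q).mt (u' : (sr q).M))ᴴ * (sr q).mt (u' : (sr q).M) = 1 := hu'
    have a3 : (sr q).mt (u' : (sr q).M)⁻¹ = ((sr q).mt (u' : (sr q).M))ᴴ := by
      calc (sr q).mt (u' : (sr q).M)⁻¹ = ((sr q).mt (u' : (sr q).M))ᴴ * (sr q).mt (u' : (sr q).M) * (sr q).mt (u' : (sr q).M)⁻¹ := by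
            rw [a2, Matrix.one_mul]
        _ = _ := by rw [Matrix.mul_assoc, (sr q).mt_mul_inv, Matrix.mul_one]
    change ((sr q).mt ((u' : (sr q).M)⁻¹ * (u : (sr q).M)))ᴴ * (sr q).mt ((u' : (sr q).M)⁻¹ * (u : (sr q).M)) = 1
    rw [Sg.mt_mul, a3, conjTranspose_mul, conjTranspose_conjTranspose]
    have a4 : (sr q).mt (u' : (sr q).M) * ((sr q).mt (u' : (sr q).M))ᴴ = 1 := mul_eq_one_comm.1 a2
    calc ((sr q).mt (u : (sr q).M))ᴴ * (sr q).mt (u' : (sr q).M) * (((sr q).mt (u' : (sr q).M))ᴴ * (sr q).mt (u : (sr q).M))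
        = ((sr q).mt (u : (sr q).M))ᴴ * ((sr q).mt (u' : (sr q).M) * ((sr q).mt (u' : (sr q).M))ᴴ) * (sr q).mt (u : (sr q).M) := by
          simp only [Matrix.mul_assoc]
      _ = 1 := by rw [a4, Matrix.mul_one, a1]
  have h6 := nbl1_orth hN hq h5
  rwa [map_mul, h3, mul_one, ← nb1_prQJ] at h6

/-- **The geometry.** -/
noncomputable def geo1 : Geo (GJ hN q) (OJ (JP N)) (KO (JP N)) where
  Q := QJ hN q
  nb := nb1 hN hq
  nbc := continuous_nb1 hN hq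
  nbs := nb1_surj hN hq
  K := prJ hN q '' UJ hN
  Kc := (isCompact_UJ hN).image (continuous_prJ hN q)
  r := r1 hN hq
  rc := continuous_r1 hN hq
  kr := kr_1 hN hq
  rK g hg := KK_1 hN hq hg (kr_1 hN hq g) (r1 hN hq g) (by rw [inv_mul_cancel_right])
  KK g hg g' hg' x h := KK_1 hN hq hg hg' x h

end Pool.Agent.Helper46.OB
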