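import Pool.Agent.Helper87.OB.N2J

/-!
# Project OB (MP_0f6f3f_an), layer TZ, node 1: the projections

`q = 0`. `Ef q`: the projection on the coordinate `0`, `E2 q = J Ef J`: the projection on the coordinate `N - 1`, `Em q`: the projection on the other coordinates. `lst hN`: the last index.
`Vm N`: the embedding of the middle coordinates, `JP N`: the form on the middle coordinates.
-/

set_option autoImplicit false
set_option linter.unusedSectionVars false

open Filter Topology Matrix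

namespace Pool.Agent.Helper46.OB

open Pool.Agent.Helper90.RK Pool.Agent.Helper84.NI Pool.Agent.Helper78.BI Pool.Agent.Helper55.OB Pool.Agent.Helper87.OB
open Pool.Agent.Helper9.Lin (cjM cjM_apply cjM_mul cjM_add cjM_one cjM_star cjM_cjM)

variable {N : ℕ} {q : Fin N}

theorem le_q_iff (hq : (q : ℕ) = 0) (i : Fin N) : i ≤ q ↔ (i : ℕ) = 0 := by
  rw [Fin.le_def, hq]
  omega

theorem jj_le_iff0 (hN : 5 ≤ N) (hq : (q : ℕ) = 0) (i : Fin N) : jj N i ≤ q ↔ (i : ℕ) + 1 = N := by
  rw [Fin.le_def, jj_val hN, hq]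
  have := i.2
  split_ifs <;> omega

/-- The last index. -/
def lst (hN : 5 ≤ N) : Fin N := ⟨N - 1, by omega⟩

variable (hN : 5 ≤ N) (hq : (q : ℕ) = 0)

include hN hq

theorem Ef_E2 : Ef q * E2 q = 0 := by
  rw [E2_diag hN]
  unfold Ef
  rw [diagonal_mul_diagonal, ← diagonal_zero]
  congr 1
  funext i
  have h1 := jj_le_iff0 hN hq i
  have h2 := le_q_iff hq i
  by_cases h : i ≤ q
  · have : ¬ jj N i ≤ q := by
      rw [h1]
      have := h2.1 h
      omega
    rw [if_pos h, if_neg this, one_mul]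
  · rw [if_neg h, zero_mul]

theorem E2_Ef : E2 q * Ef q = 0 := by
  have h := congrArg conjTranspose (Ef_E2 hN hq)
  rw [conjTranspose_mul, conjTranspose_zero, Ef_star] at h
  rwa [E2_star hN] at h

theorem Ef_Em : Ef q * Em q = 0 := by
  unfold Em
  rw [Matrix.mul_sub, Matrix.mul_sub, Matrix.mul_one, Ef_Ef, Ef_E2 hN hq, sub_self, sub_zero]

theorem Em_Ef : Em q * Ef q = 0 := by
  unfold Em
  rw [Matrix.sub_mul, Matrix.sub_mul, Matrix.one_mul, Ef_Ef, E2_Ef hN hq, sub_self, sub_zero]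

theorem E2_Em : E2 q * Em q = 0 := by
  unfold Em
  rw [Matrix.mul_sub, Matrix.mul_sub, Matrix.mul_one, E2_Ef hN hq, E2_E2 hN, sub_zero, sub_self]

theorem Em_E2 : Em q * E2 q = 0 := by
  unfold Em
  rw [Matrix.sub_mul, Matrix.sub_mul, Matrix.one_mul, Ef_E2 hN hq, E2_E2 hN, sub_zero, sub_self]

theorem Em_Em : Em q * Em q = Em q := by
  have h : Em q * Em q = (1 - Ef q - E2 q) * Em q := rfl
  rw [h, Matrix.sub_mul, Matrix.sub_mul, Matrix.one_mul, Ef_Em hN hq, E2_Em hN hq, sub_zero, sub_zero]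

omit hq in
theorem JJ_Em : JJ N * Em q = Em q * JJ N := by
  unfold Em
  rw [Matrix.mul_sub, Matrix.mul_sub, Matrix.sub_mul, Matrix.sub_mul, JJ_Ef hN, JJ_E2 hN, Matrix.mul_one, Matrix.one_mul]
  abel

theorem Ee_E2 : Ee q * E2 q = E2 q := by rw [Ee_Em_E2, Matrix.add_mul, Em_E2 hN hq, E2_E2 hN, zero_add]

theorem E2_Ee : E2 q * Ee q = E2 q := by rw [Ee_Em_E2, Matrix.mul_add, E2_Em hN hq, E2_E2 hN, zero_add]

theorem Em_Ee : Em q * Ee q = Em q := by rw [Ee_Em_E2, Matrix.mul_add, Em_E2 hN hq, Em_Em hN hq, add_zero]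

theorem Ee_Em : Ee q * Em q = Em q := by rw [Ee_Em_E2, Matrix.add_mul, E2_Em hN hq, Em_Em hN hq, add_zero]

omit hq in
theorem J_E2_J : JJ N * E2 q * JJ N = Ef q := by
  rw [JJ_E2 hN, Matrix.mul_assoc, JJ_JJ hN, Matrix.mul_one]

theorem E2_eq : E2 q = diagonal fun i => if i = lst hN then 1 else 0 := by
  rw [E2_diag hN]
  congr 1
  funext i
  have h1 := jj_le_iff0 hN hq i
  have h2 : i = lst hN ↔ (i : ℕ) + 1 = N := by
    rw [Fin.ext_iff]
    change (i : ℕ) = N - 1 ↔ _
    omega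
  by_cases h : jj N i ≤ q
  · rw [if_pos h, if_pos (h2.2 (h1.1 h))]
  · rw [if_neg h, if_neg (fun h' => h (h1.2 (h2.1 h')))]

omit hN in
theorem Ef_eq : Ef q = diagonal fun i => if i = q then 1 else 0 := by
  unfold Ef
  congr 1
  funext i
  have h2 : i ≤ q ↔ i = q := by rw [le_q_iff hq, Fin.ext_iff, hq]
  simp only [h2]

omit hN in
/-- the corner -/
theorem Ef_mul_Ef (A : MN N) : Ef q * A * Ef q = A q q • Ef q := by
  rw [Ef_eq hq]
  ext i j
  rw [mul_diagonal, diagonal_mul, Matrix.smul_apply, diagonal_apply, smul_eq_mul]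
  by_cases hi : i = q
  · by_cases hj : j = q
    · subst hi
      subst hj
      simp
    · have : i ≠ j := fun h => hj (h ▸ hi)
      simp [hj, this]
  · rw [if_neg hi, zero_mul, zero_mul]
    by_cases h : i = j
    · rw [if_pos h, mul_zero]
    · rw [if_neg h, mul_zero]

theorem E2_mul_E2 (A : MN N) : E2 q * A * E2 q = A (lst hN) (lst hN) • E2 q := by
  rw [E2_eq hN hq]
  ext i j
  rw [mul_diagonal, diagonal_mul, Matrix.smul_apply, diagonal_apply, smul_eq_mul]
  by_cases hi : i = lst hN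
  · by_cases hj : j = lst hN
    · subst hi
      subst hj
      simp
    · have : i ≠ j := fun h => hj (h ▸ hi)
      simp [hj, this]
  · rw [if_neg hi, zero_mul, zero_mul]
    by_cases h : i = j
    · rw [if_pos h, mul_zero]
    · rw [if_neg h, mul_zero]

end Pool.Agent.Helper46.OB
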