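import Pool.Agent.Helper46.OB.N1J
import Pool.Agent.Helper87.OB.N2M
import Pool.Agent.Helper84.OB.SizP

/-!
# Project OB (MP_0f6f3f_an), layer TZ, node 1: the block map

`q = 0`. `em N : Fin (N - 2) → Fin N`: the middle indices. `mid A`: the middle block (real part). `JP N`: the form on the middle block. `nbl1 : HQ → OJ (JP N)`: the sign of the corner times the middle block,
`nb1 : QJ → OJ (JP N)`: the same on the quotient.
-/

set_option autoImplicit false
set_option linter.unusedSectionVars false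

open Filter Topology Matrix

namespace Pool.Agent.Helper46.OB

open Pool.Agent.Helper90.RK Pool.Agent.Helper84.NI Pool.Agent.Helper78.BI Pool.Agent.Helper55.OB Pool.Agent.Helper9
open Pool.Agent.Helper35.FP Pool.Agent.Helper55.TZ Pool.Agent.Helper84.OB
open Pool.Agent.Helper87.OB hiding Ef_E2 E2_Ef Ef_Em Em_Ef E2_Em Em_E2 Em_Em JJ_Em Ee_E2 E2_Ee Em_Ee Ee_Em
open Pool.Agent.Helper9.Lin (cjM cjM_apply cjM_mul cjM_add cjM_one cjM_star cjM_cjM)

variable {N : ℕ}

/-- The middle indices. -/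
def em (N : ℕ) (i : Fin (N - 2)) : Fin N := ⟨(i : ℕ) + 1, by have := i.2; omega⟩

theorem em_val (i : Fin (N - 2)) : ((em N i : Fin N) : ℕ) = (i : ℕ) + 1 := rfl

theorem em_inj : Function.Injective (em N) := fun i j h => by
  have h1 := congrArg Fin.val h
  rw [em_val, em_val] at h1
  exact Fin.ext (by omega)

theorem exists_em {k : Fin N} (h1 : (k : ℕ) ≠ 0) (h2 : (k : ℕ) + 1 ≠ N) : ∃ i, em N i = k := by
  refine ⟨⟨(k : ℕ) - 1, by have := k.2; omega⟩, Fin.ext ?_⟩
  rw [em_val]
  change (k : ℕ) - 1 + 1 = k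
  omega

theorem notMem_em {k : Fin N} (h : k ∉ Set.range (em N)) : (k : ℕ) = 0 ∨ (k : ℕ) + 1 = N := by
  by_contra hcon
  push Not at hcon
  exact h (exists_em hcon.1 hcon.2)

/-- The partner of a middle index. -/
def jp (hN : 5 ≤ N) (i : Fin (N - 2)) : Fin (N - 2) := ⟨((jj N (em N i) : Fin N) : ℕ) - 1, by
  have h1 := jj_val hN (em N i)
  have h2 := i.2
  rw [em_val] at h1
  rw [h1]
  split_ifs <;> omega⟩

theorem em_jp (hN : 5 ≤ N) (i : Fin (N - 2)) : em N (jp hN i) = jj N (em N i) := by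
  refine Fin.ext ?_
  rw [em_val]
  change ((jj N (em N i) : Fin N) : ℕ) - 1 + 1 = _
  have h1 := jj_val hN (em N i)
  have h2 := i.2
  rw [em_val] at h1
  rw [h1]
  split_ifs <;> omega

theorem jp_jp (hN : 5 ≤ N) (i : Fin (N - 2)) : jp hN (jp hN i) = i := by
  apply em_inj
  rw [em_jp, em_jp, jj_jj hN]

/-- The form on the middle block. -/
def JP (N : ℕ) : Matrix (Fin (N - 2)) (Fin (N - 2)) ℝ := Matrix.of fun i j => if em N j = jj N (em N i) then 1 else 0

theorem JP_apply (hN : 5 ≤ N) (i j : Fin (N - 2)) : JP N i j = if j = jp hN i then 1 else 0 := by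
  unfold JP
  rw [Matrix.of_apply, ← em_jp hN]
  simp only [em_inj.eq_iff]

theorem JP_mul (hN : 5 ≤ N) (A : Matrix (Fin (N - 2)) (Fin (N - 2)) ℝ) (i j : Fin (N - 2)) : (JP N * A) i j = A (jp hN i) j := by
  rw [Matrix.mul_apply, Finset.sum_eq_single (jp hN i)]
  · rw [JP_apply hN, if_pos rfl, one_mul]
  · intro k _ hk
    rw [JP_apply hN, if_neg hk, zero_mul]
  · intro h
    exact absurd (Finset.mem_univ _) h

theorem JP_sq (hN : 5 ≤ N) : JP N * JP N = 1 := by
  ext i j
  rw [JP_mul hN, JP_apply hN, jp_jp, Matrix.one_apply]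
  simp only [eq_comm]

theorem JP_tr (hN : 5 ≤ N) : (JP N)ᵀ = JP N := by
  ext i j
  rw [Matrix.transpose_apply, JP_apply hN, JP_apply hN]
  by_cases h : j = jp hN i
  · rw [if_pos h, if_pos (by rw [h, jp_jp])]
  · rw [if_neg h, if_neg (fun h' => h (by rw [h', jp_jp]))]

/-- The middle block (real part). -/
def mid (A : MN N) : Matrix (Fin (N - 2)) (Fin (N - 2)) ℝ := Matrix.of fun i j => (A (em N i) (em N j)).re

theorem mid_apply (A : MN N) (i j : Fin (N - 2)) : mid A i j = (A (em N i) (em N j)).re := rfl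

theorem continuous_mid : Continuous (mid : MN N → _) :=
  continuous_matrix fun i j => Complex.continuous_re.comp (continuous_id.matrix_elem (em N i) (em N j))

theorem im_real {A : MN N} (h : cjM A = A) (i j : Fin N) : (A i j).im = 0 := by
  have h1 := congrFun (congrFun h i) j
  rw [cjM_apply] at h1
  exact Complex.conj_eq_iff_im.1 h1

theorem re_real {A : MN N} (h : cjM A = A) (i j : Fin N) : (((A i j).re : ℝ) : ℂ) = A i j := by
  have h1 := congrFun (congrFun h i) j
  rw [cjM_apply] at h1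
  exact Complex.conj_eq_iff_re.1 h1

theorem mid_one : mid (1 : MN N) = 1 := by
  ext i j
  rw [mid_apply, Matrix.one_apply, Matrix.one_apply]
  by_cases h : i = j
  · rw [if_pos (congrArg _ h), if_pos h, Complex.one_re]
  · rw [if_neg (fun h' => h (em_inj h')), if_neg h, Complex.zero_re]

theorem mid_star (A : MN N) : mid Aᴴ = (mid A)ᵀ := by
  ext i j
  rw [mid_apply, Matrix.transpose_apply, mid_apply, Matrix.conjTranspose_apply, RCLike.star_def, Complex.conj_re]

variable (hN : 5 ≤ N) {q : Fin N} (hq : (q : ℕ) = 0)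

include hq in
theorem row0 {A : MN N} (hA : Lb q A) {j : Fin N} (hj : (j : ℕ) ≠ 0) : A q j = 0 :=
  lb_iff.1 hA q j le_rfl (by rw [Fin.lt_def, hq]; omega)

include hq in
/-- the last column of an element of `HQ` -/
theorem col1 (g : HQ hN q) {i : Fin N} (hi : (i : ℕ) + 1 ≠ N) : (sr q).mt g i (lst hN) = 0 := by
  have h1 : (sr q).mt (g : (sr q).M) = JJ N * ((sr q).mt (g : (sr q).M)⁻¹)ᴴ * JJ N := by
    conv_lhs => rw [← show th hN q (g : (sr q).M) = g from g.2.1]
    exact mt_th hN q g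
  have hj : jj N (lst hN) = q := by
    refine Fin.ext ?_
    rw [jj_val hN, hq]
    change (if N - 1 < 2 ∨ N ≤ N - 1 + 2 then N - 1 - (N - 1) else N - 1) = 0
    split_ifs <;> omega
  have h5 : (sr q).mt (g : (sr q).M)⁻¹ q (jj N i) = 0 := by
    refine row0 hq (g⁻¹).2.2 fun h4 => ?_
    exact hi ((jj_le_iff0 hN hq i).1 (by rw [le_q_iff hq]; exact h4))
  rw [h1, mul_JJ_apply hN, JJ_mul_apply, hj, Matrix.conjTranspose_apply, h5, star_zero]

include hq in
theorem mid_mul (g h : HQ hN q) : mid ((sr q).mt (g * h : HQ hN q)) = mid ((sr q).mt g) * mid ((sr q).mt h) := by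
  ext i j
  rw [mid_apply, Matrix.mul_apply]
  change (((sr q).mt (g : (sr q).M) * (sr q).mt (h : (sr q).M)) (em N i) (em N j)).re = _
  rw [Matrix.mul_apply, Complex.re_sum]
  symm
  refine Fintype.sum_of_injective (em N) em_inj _ _ (fun k hk => ?_) fun k => ?_
  · rcases notMem_em hk with h0 | h0
    · have : k = q := Fin.ext (by rw [h0, hq])
      rw [this, row0 hq h.2.2 (by rw [em_val]; omega), mul_zero, Complex.zero_re]
    · have : k = lst hN := Fin.ext (by change (k : ℕ) = N - 1; omega)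
      rw [this, col1 hN hq g (by rw [em_val]; have := i.2; omega), zero_mul, Complex.zero_re]
  · rw [Complex.mul_re, mid_apply, mid_apply, im_real ((sr q).σ_mt g), zero_mul, sub_zero]

include hq in
theorem corner_mul (g h : HQ hN q) : ((sr q).mt (g * h : HQ hN q) q q).re = ((sr q).mt g q q).re * ((sr q).mt h q q).re := by
  change (((sr q).mt (g : (sr q).M) * (sr q).mt (h : (sr q).M)) q q).re = _
  rw [Matrix.mul_apply, Finset.sum_eq_single q]
  · rw [Complex.mul_re, im_real ((sr q).σ_mt g), zero_mul, sub_zero]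
  · intro k _ hk
    rw [row0 hq g.2.2, zero_mul]
    intro h0
    exact hk (Fin.ext (by rw [h0, hq]))
  · intro h0
    exact absurd (Finset.mem_univ _) h0

include hq in
theorem corner_ne (g : HQ hN q) : ((sr q).mt g q q).re ≠ 0 := by
  intro h0
  have h1 := corner_mul hN hq g g⁻¹
  rw [mul_inv_cancel, h0, zero_mul] at h1
  change ((1 : MN N) q q).re = 0 at h1
  rw [Matrix.one_apply_eq, Complex.one_re] at h1
  exact one_ne_zero h1

include hq in
/-- The middle block preserves the form. -/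
theorem mid_form (g : HQ hN q) : (mid ((sr q).mt g))ᵀ * JP N * mid ((sr q).mt g) = JP N := by
  have h1 : ((sr q).mt (g : (sr q).M))ᴴ * (JJ N * (sr q).mt (g : (sr q).M)) = JJ N := by
    rw [← Matrix.mul_assoc]
    exact (mem_MJ hN q).1 g.2.1
  ext i j
  have h2 := congrArg Complex.re (congrFun (congrFun h1 (em N i)) (em N j))
  rw [Matrix.mul_apply, Complex.re_sum] at h2
  have h3 : (JJ N (em N i) (em N j)).re = JP N i j := by
    rw [JJ_apply]
    unfold JP
    rw [Matrix.of_apply]
    split_ifs <;> simp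
  rw [← h3, ← h2, Matrix.mul_assoc, Matrix.mul_apply]
  refine Fintype.sum_of_injective (em N) em_inj _ _ (fun k hk => ?_) fun k => ?_
  · rw [JJ_mul_apply, Matrix.conjTranspose_apply]
    rcases notMem_em hk with h0 | h0
    · have : k = q := Fin.ext (by rw [h0, hq])
      rw [this, row0 hq g.2.2 (j := em N i) (by rw [em_val]; omega), star_zero, zero_mul, Complex.zero_re]
    · have : jj N k = q := by
        refine Fin.ext ?_
        have h5 := (jj_le_iff0 hN hq k).2 h0
        rw [le_q_iff hq] at h5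
        rw [h5, hq]
      rw [this, row0 hq g.2.2 (j := em N j) (by rw [em_val]; omega), mul_zero, Complex.zero_re]
  · rw [JJ_mul_apply, JP_mul hN, Matrix.transpose_apply, mid_apply, mid_apply, Matrix.conjTranspose_apply, em_jp, Complex.mul_re,
      im_real ((sr q).σ_mt g) (jj N (em N k)), mul_zero, sub_zero, RCLike.star_def, Complex.conj_re]

/-- the sign -/
noncomputable def sgn (x : ℝ) : ℝ := x / |x|

theorem sgn_mul (x y : ℝ) : sgn (x * y) = sgn x * sgn y := by
  unfold sgn
  rw [abs_mul, div_mul_div_comm]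

theorem sgn_sq {x : ℝ} (hx : x ≠ 0) : sgn x * sgn x = 1 := by
  unfold sgn
  rw [div_mul_div_comm, abs_mul_abs_self, div_self (mul_ne_zero hx hx)]

/-- **The block map** (on matrices). -/
noncomputable def nbl1 : HQ hN q →* OJ (JP N) := MonoidHom.mk'
  (fun g => mkO (JP_sq hN) (sgn ((sr q).mt g q q).re • mid ((sr q).mt g)) (by
    rw [transpose_smul, Matrix.smul_mul, Matrix.smul_mul, Matrix.mul_smul, smul_smul, sgn_sq (corner_ne hN hq g), one_smul,
      mid_form hN hq g])) (by
    intro g h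
    refine mt_inj ?_
    change sgn ((sr q).mt (g * h : HQ hN q) q q).re • mid ((sr q).mt (g * h : HQ hN q)) =
      (sgn ((sr q).mt g q q).re • mid ((sr q).mt g)) * (sgn ((sr q).mt h q q).re • mid ((sr q).mt h))
    rw [corner_mul hN hq, mid_mul hN hq, sgn_mul, Matrix.smul_mul, Matrix.mul_smul, smul_smul])

theorem mt_nbl1 (g : HQ hN q) : mt (nbl1 hN hq g) = sgn ((sr q).mt g q q).re • mid ((sr q).mt g) := rfl

include hq in
theorem continuous_nbl1 : Continuous (nbl1 hN hq) := by
  rw [isEmbedding_mt.continuous_iff]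
  have h1 : Continuous fun g : HQ hN q => (sr q).mt (g : (sr q).M) := (sr q).continuous_mt.comp continuous_subtype_val
  have h2 : Continuous fun g : HQ hN q => ((sr q).mt (g : (sr q).M) q q).re :=
    Complex.continuous_re.comp ((continuous_id.matrix_elem q q).comp h1)
  exact (h2.div h2.abs fun g => abs_ne_zero.2 (corner_ne hN hq g)).smul (continuous_mid.comp h1)

include hq in
theorem nbl1_Z0 {z : HQ hN q} (hz : (z : (sr q).M) ∈ (sr q).Z0) : nbl1 hN hq z = 1 := by
  obtain ⟨c, hc, h⟩ := hz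
  refine mt_inj ?_
  rw [mt_nbl1, mt_one, h]
  have hr : ((c.re : ℝ) : ℂ) = c := by
    have h1 := re_real ((sr q).σ_mt (z : (sr q).M)) q q
    rwa [h, Matrix.smul_apply, Matrix.one_apply_eq, smul_eq_mul, mul_one] at h1
  have h2 : mid (c • (1 : MN N)) = c.re • (1 : Matrix (Fin (N - 2)) (Fin (N - 2)) ℝ) := by
    rw [← mid_one]
    ext i j
    rw [mid_apply, Matrix.smul_apply, Matrix.smul_apply, mid_apply, smul_eq_mul, smul_eq_mul, ← hr, Complex.re_ofReal_mul,
      Complex.ofReal_re]
  have h3 : (c • (1 : MN N)) q q = c := by rw [Matrix.smul_apply, Matrix.one_apply_eq, smul_eq_mul, mul_one]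
  have h4 : |c.re| = 1 := by
    rw [← hc, ← hr, Complex.norm_real, Complex.ofReal_re, Real.norm_eq_abs]
  have h5 : c.re * c.re = 1 := by rw [← abs_mul_abs_self, h4, one_mul]
  rw [h2, h3, smul_smul]
  unfold sgn
  rw [h4, div_one, h5, one_smul]

theorem ker_prQJ_le : (prQJ hN q).ker ≤ (nbl1 hN hq).ker := by
  intro g hg
  rw [MonoidHom.mem_ker] at hg ⊢
  refine nbl1_Z0 hN hq ?_
  have h1 : (sr q).pr (g : (sr q).M) = 1 := by
    rw [← prQJ_coe, hg]
    rfl
  exact (QuotientGroup.eq_one_iff _).1 h1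

/-- **The block map.** -/
noncomputable def nb1 : QJ hN q →* OJ (JP N) := (prQJ hN q).liftOfSurjective (prQJ_surj hN q) ⟨nbl1 hN hq, ker_prQJ_le hN hq⟩

theorem nb1_prQJ (g : HQ hN q) : nb1 hN hq (prQJ hN q g) = nbl1 hN hq g :=
  MonoidHom.liftOfRightInverse_comp_apply (prQJ hN q) _ (Function.rightInverse_surjInv (prQJ_surj hN q)) ⟨nbl1 hN hq, ker_prQJ_le hN hq⟩ g

theorem continuous_nb1 : Continuous (nb1 hN hq) := by
  rw [((isOpenMap_prQJ hN q).isQuotientMap (continuous_prQJ hN q) (prQJ_surj hN q)).continuous_iff]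
  exact (continuous_nbl1 hN hq).congr fun g => (nb1_prQJ hN hq g).symm

/-- The orthogonal elements have an orthogonal middle block. -/
theorem nbl1_orth {g : HQ hN q} (hg : IsU ((sr q).mt g)) : nbl1 hN hq g ∈ KO (JP N) := by
  rw [mem_KO, mt_nbl1, transpose_smul, Matrix.smul_mul, Matrix.mul_smul, smul_smul, sgn_sq (corner_ne hN hq g), one_smul, ← mid_star]
  have h1 : ((sr q).mt (g : (sr q).M))ᴴ = (sr q).mt ((g⁻¹ : HQ hN q) : (sr q).M) := by
    have hg' : ((sr q).mt (g : (sr q).M))ᴴ * (sr q).mt (g : (sr q).M) = 1 := hg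
    calc ((sr q).mt (g : (sr q).M))ᴴ
        = ((sr q).mt (g : (sr q).M))ᴴ * ((sr q).mt (g : (sr q).M) * (sr q).mt (g : (sr q).M)⁻¹) := by
          rw [(sr q).mt_mul_inv, Matrix.mul_one]
      _ = _ := by
          rw [← Matrix.mul_assoc, hg', Matrix.one_mul]
          rfl
  rw [h1, ← mid_mul hN hq, inv_mul_cancel]
  exact mid_one

/-- Elements with an orthogonal middle block. -/
theorem nbl1_mem_KO {g : HQ hN q} (hg : (mid ((sr q).mt g))ᵀ * mid ((sr q).mt g) = 1) : nbl1 hN hq g ∈ KO (JP N) := by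
  rw [mem_KO, mt_nbl1, transpose_smul, Matrix.smul_mul, Matrix.mul_smul, smul_smul, sgn_sq (corner_ne hN hq g), one_smul, hg]

/-- The kernel of the block map: the middle block is `± 1`. -/
theorem nbl1_ker {g : HQ hN q} (hg : nbl1 hN hq g = 1) : ∃ e : ℝ, mid ((sr q).mt g) = e • 1 := by
  have h1 := congrArg Pool.Agent.Helper84.OB.mt hg
  rw [mt_nbl1, mt_one] at h1
  refine ⟨sgn ((sr q).mt g q q).re, ?_⟩
  rw [← h1, smul_smul, sgn_sq (corner_ne hN hq g), one_smul]

end Pool.Agent.Helper46.OB
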