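import Pool.Agent.Helper46.OB.N1M

/-!
# Project OB (MP_0f6f3f_an), layer TZ, node 1: the block map is open and surjective

`Vm N`: the embedding of the middle coordinates. `ex B`: the matrix with the middle block `B`. `se1 : OJ (JP N) → HQ`: the section of `nbl1`. `nb1_surj`, `isOpenMap_nb1`.
-/

set_option autoImplicit false
set_option linter.unusedSectionVars false

open Filter Topology Matrix

namespace Pool.Agent.Helper46.OB

open Pool.Agent.Helper90.RK Pool.Agent.Helper84.NI Pool.Agent.Helper78.BI Pool.Agent.Helper55.OB Pool.Agent.Helper9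
open Pool.Agent.Helper35.FP Pool.Agent.Helper55.TZ Pool.Agent.Helper84.OB
open Pool.Agent.Helper87.OB hiding Ef_E2 E2_Ef Ef_Em Em_Ef E2_Em Em_E2 Em_Em JJ_Em Ee_E2 E2_Ee Em_Ee Ee_Em
open Pool.Agent.Helper9.Lin (cjM cjM_apply cjM_mul cjM_add cjM_one cjM_star cjM_cjM)

variable {N : ℕ}

/-- The embedding of the middle coordinates. -/
def Vm (N : ℕ) : Matrix (Fin N) (Fin (N - 2)) ℂ := Matrix.of fun i k => if i = em N k then 1 else 0

theorem Vm_apply (i : Fin N) (k : Fin (N - 2)) : Vm N i k = if i = em N k then 1 else 0 := rfl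

theorem Vms_mul {n : ℕ} (A : Matrix (Fin N) (Fin n) ℂ) (k : Fin (N - 2)) (j : Fin n) : ((Vm N)ᴴ * A) k j = A (em N k) j := by
  rw [Matrix.mul_apply, Finset.sum_eq_single (em N k)]
  · rw [Matrix.conjTranspose_apply, Vm_apply, if_pos rfl, star_one, one_mul]
  · intro i _ hi
    rw [Matrix.conjTranspose_apply, Vm_apply, if_neg hi, star_zero, zero_mul]
  · intro h
    exact absurd (Finset.mem_univ _) h

theorem mul_Vm {n : ℕ} (A : Matrix (Fin n) (Fin N) ℂ) (i : Fin n) (k : Fin (N - 2)) : (A * Vm N) i k = A i (em N k) := by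
  rw [Matrix.mul_apply, Finset.sum_eq_single (em N k)]
  · rw [Vm_apply, if_pos rfl, mul_one]
  · intro i _ hi
    rw [Vm_apply, if_neg hi, mul_zero]
  · intro h
    exact absurd (Finset.mem_univ _) h

theorem Vms_Vm : (Vm N)ᴴ * Vm N = 1 := by
  ext i j
  rw [Vms_mul, Vm_apply, Matrix.one_apply]
  simp only [em_inj.eq_iff]

theorem map_Vm : (Vm N).map (starRingEnd ℂ) = Vm N := by
  ext i k
  rw [Matrix.map_apply, Vm_apply]
  split_ifs <;> simp

theorem map_Vms : ((Vm N)ᴴ).map (starRingEnd ℂ) = (Vm N)ᴴ := by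
  ext i k
  rw [Matrix.map_apply, Matrix.conjTranspose_apply, Vm_apply]
  split_ifs <;> simp

/-- complex version of a real matrix -/
def toC (B : Matrix (Fin (N - 2)) (Fin (N - 2)) ℝ) : Matrix (Fin (N - 2)) (Fin (N - 2)) ℂ := B.map Complex.ofRealHom

theorem toC_apply (B : Matrix (Fin (N - 2)) (Fin (N - 2)) ℝ) (i j : Fin (N - 2)) : toC B i j = (B i j : ℂ) := rfl

theorem toC_mul (A B : Matrix (Fin (N - 2)) (Fin (N - 2)) ℝ) : toC (A * B) = toC A * toC B := Matrix.map_mul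

theorem toC_one : toC (1 : Matrix (Fin (N - 2)) (Fin (N - 2)) ℝ) = 1 := Matrix.map_one _ (map_zero _) (map_one _)

theorem toC_star (B : Matrix (Fin (N - 2)) (Fin (N - 2)) ℝ) : (toC B)ᴴ = toC Bᵀ := by
  ext i j
  rw [Matrix.conjTranspose_apply, toC_apply, toC_apply, Matrix.transpose_apply]
  exact Complex.conj_ofReal _

theorem map_toC (B : Matrix (Fin (N - 2)) (Fin (N - 2)) ℝ) : (toC B).map (starRingEnd ℂ) = toC B := by
  ext i j
  rw [Matrix.map_apply, toC_apply, Complex.conj_ofReal]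

variable (hN : 5 ≤ N) {q : Fin N} (hq : (q : ℕ) = 0)

include hq in
theorem Ef_Vm : Ef q * Vm N = 0 := by
  ext i k
  rw [mul_Vm, Ef_eq hq, Matrix.diagonal_apply, Matrix.zero_apply]
  split_ifs with h1 h2
  · exfalso
    have h3 := congrArg Fin.val h2
    have h4 := congrArg Fin.val h1
    rw [em_val] at h4
    omega
  · rfl
  · rfl

include hN hq in
theorem E2_Vm : E2 q * Vm N = 0 := by
  ext i k
  rw [mul_Vm, E2_eq hN hq, Matrix.diagonal_apply, Matrix.zero_apply]
  split_ifs with h1 h2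
  · exfalso
    have h3 : (i : ℕ) = N - 1 := congrArg Fin.val h2
    have h4 := congrArg Fin.val h1
    have := k.2
    rw [em_val] at h4
    omega
  · rfl
  · rfl

include hq in
theorem Vms_Ef : (Vm N)ᴴ * Ef q = 0 := by
  have h := congrArg conjTranspose (Ef_Vm hq)
  rwa [conjTranspose_mul, Ef_star, conjTranspose_zero] at h

include hN hq in
theorem Vms_E2 : (Vm N)ᴴ * E2 q = 0 := by
  have h := congrArg conjTranspose (E2_Vm hN hq)
  rwa [conjTranspose_mul, E2_star hN, conjTranspose_zero] at h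

include hN hq in
theorem Vm_Vms : Vm N * (Vm N)ᴴ = Em q := by
  have h1 : ∀ i j, (Vm N * (Vm N)ᴴ) i j = if i = j ∧ (i : ℕ) ≠ 0 ∧ (i : ℕ) + 1 ≠ N then 1 else 0 := by
    intro i j
    rw [Matrix.mul_apply]
    by_cases hi : i ∈ Set.range (em N)
    · obtain ⟨k, rfl⟩ := hi
      rw [Finset.sum_eq_single k]
      · rw [Vm_apply, if_pos rfl, one_mul, Matrix.conjTranspose_apply, Vm_apply]
        have h3 := k.2
        by_cases h : em N k = j
        · rw [if_pos h.symm, if_pos ⟨h, by rw [em_val]; omega, by rw [em_val]; omega⟩, star_one]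
        · rw [if_neg (fun h' => h h'.symm), if_neg (fun h' => h h'.1), star_zero]
      · intro l _ hl
        rw [Vm_apply, if_neg (fun h => hl (em_inj h).symm), zero_mul]
      · intro h
        exact absurd (Finset.mem_univ _) h
    · have h2 := notMem_em hi
      rw [if_neg (by omega)]
      refine Finset.sum_eq_zero fun l _ => ?_
      rw [Vm_apply, if_neg (fun h => hi ⟨l, h.symm⟩), zero_mul]
  ext i j
  rw [h1]
  unfold Em
  rw [Ef_eq hq, E2_eq hN hq, ← diagonal_one, diagonal_sub, diagonal_sub, diagonal_apply]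
  have e1 : i = q ↔ (i : ℕ) = 0 := by rw [Fin.ext_iff, hq]
  have e2 : i = lst hN ↔ (i : ℕ) + 1 = N := by
    rw [Fin.ext_iff]
    change (i : ℕ) = N - 1 ↔ _
    omega
  by_cases h : i = j
  · rw [if_pos h]
    by_cases h0 : (i : ℕ) = 0
    · rw [if_neg (fun h' => h'.2.1 h0), if_pos (e1.2 h0), if_neg (fun h' => by have := e2.1 h'; omega)]
      norm_num
    · by_cases h0' : (i : ℕ) + 1 = N
      · rw [if_neg (fun h' => h'.2.2 h0'), if_neg (fun h' => h0 (e1.1 h')), if_pos (e2.2 h0')]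
        norm_num
      · rw [if_pos ⟨h, h0, h0'⟩, if_neg (fun h' => h0 (e1.1 h')), if_neg (fun h' => h0' (e2.1 h'))]
        norm_num
  · rw [if_neg h, if_neg (fun h' => h h'.1)]

include hN in
theorem JJ_Vm : JJ N * Vm N = Vm N * toC (JP N) := by
  ext i k
  have h0 : (JJ N * Vm N) i k = Vm N (jj N i) k := by
    rw [Matrix.mul_apply, Finset.sum_eq_single (jj N i)]
    · rw [JJ_apply, if_pos rfl, one_mul]
    · intro l _ hl
      rw [JJ_apply, if_neg hl, zero_mul]
    · intro h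
      exact absurd (Finset.mem_univ _) h
  rw [h0, Matrix.mul_apply, Finset.sum_eq_single (jp hN k)]
  · rw [toC_apply, JP_apply hN, jp_jp, if_pos rfl, Complex.ofReal_one, mul_one, Vm_apply, Vm_apply, em_jp]
    by_cases h : jj N i = em N k
    · rw [if_pos h, if_pos (by rw [← h, jj_jj hN])]
    · rw [if_neg h, if_neg (fun h' => h (by rw [h', jj_jj hN]))]
  · intro l _ hl
    rw [toC_apply, JP_apply hN, if_neg (fun h => hl (by rw [h, jp_jp])), Complex.ofReal_zero, mul_zero]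
  · intro h
    exact absurd (Finset.mem_univ _) h

/-- The matrix with the middle block `B`. -/
def ex (q : Fin N) (B : Matrix (Fin (N - 2)) (Fin (N - 2)) ℝ) : MN N := Ef q + E2 q + Vm N * toC B * (Vm N)ᴴ

include hN in
theorem ex_star (B : Matrix (Fin (N - 2)) (Fin (N - 2)) ℝ) : (ex q B)ᴴ = ex q Bᵀ := by
  unfold ex
  rw [conjTranspose_add, conjTranspose_add, Ef_star, E2_star hN, conjTranspose_mul, conjTranspose_mul,
    conjTranspose_conjTranspose, toC_star, Matrix.mul_assoc]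

include hN hq in
theorem ex_mul (A B : Matrix (Fin (N - 2)) (Fin (N - 2)) ℝ) : ex q A * ex q B = ex q (A * B) := by
  unfold ex
  have h1 : Vm N * toC A * (Vm N)ᴴ * (Vm N * toC B * (Vm N)ᴴ) = Vm N * toC (A * B) * (Vm N)ᴴ := by
    calc Vm N * toC A * (Vm N)ᴴ * (Vm N * toC B * (Vm N)ᴴ) = Vm N * toC A * ((Vm N)ᴴ * Vm N) * toC B * (Vm N)ᴴ := by
          simp only [Matrix.mul_assoc]
      _ = _ := by
          rw [Vms_Vm, Matrix.mul_one, toC_mul]
          simp only [Matrix.mul_assoc]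
  have h2 : Ef q * (Vm N * toC B * (Vm N)ᴴ) = 0 := by
    rw [← Matrix.mul_assoc, ← Matrix.mul_assoc, Ef_Vm hq, Matrix.zero_mul, Matrix.zero_mul]
  have h3 : E2 q * (Vm N * toC B * (Vm N)ᴴ) = 0 := by
    rw [← Matrix.mul_assoc, ← Matrix.mul_assoc, E2_Vm hN hq, Matrix.zero_mul, Matrix.zero_mul]
  have h4 : Vm N * toC A * (Vm N)ᴴ * Ef q = 0 := by rw [Matrix.mul_assoc _ (Vm N)ᴴ, Vms_Ef hq, Matrix.mul_zero]
  have h5 : Vm N * toC A * (Vm N)ᴴ * E2 q = 0 := by rw [Matrix.mul_assoc _ (Vm N)ᴴ, Vms_E2 hN hq, Matrix.mul_zero]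
  rw [Matrix.add_mul, Matrix.add_mul, Matrix.mul_add, Matrix.mul_add, Matrix.mul_add, Matrix.mul_add, Matrix.mul_add,
    Matrix.mul_add, h1, h2, h3, h4, h5, Ef_Ef, Ef_E2 hN hq, E2_Ef hN hq, E2_E2 hN]
  abel

include hN hq in
theorem ex_one : ex q (1 : Matrix (Fin (N - 2)) (Fin (N - 2)) ℝ) = 1 := by
  unfold ex
  rw [toC_one, Matrix.mul_one, Vm_Vms hN hq]
  unfold Em
  abel

theorem ex_real (B : Matrix (Fin (N - 2)) (Fin (N - 2)) ℝ) : (sr q).σ (ex q B) = ex q B := by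
  unfold ex E2
  rw [(sr q).add, (sr q).add, (sr q).mul, (sr q).mul, (sr q).blk]
  have h1 : (sr q).σ (JJ N) = JJ N := JJ_cj
  have h2 : (sr q).σ (Vm N * toC B * (Vm N)ᴴ) = Vm N * toC B * (Vm N)ᴴ := by
    change cjM (Vm N * toC B * (Vm N)ᴴ) = _
    have h3 : cjM (Vm N * toC B * (Vm N)ᴴ) = (Vm N * toC B * (Vm N)ᴴ).map (starRingEnd ℂ) := by
      ext i j
      rw [cjM_apply, Matrix.map_apply]
    rw [h3, Matrix.map_mul, Matrix.map_mul, map_Vm, map_Vms, map_toC]
  rw [h1, h2]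

include hN hq in
theorem ex_JJ : ex q (JP N) = Ef q + E2 q + Em q * JJ N := by
  unfold ex
  rw [← JJ_Vm hN, Matrix.mul_assoc, Vm_Vms hN hq, JJ_Em hN]

include hN hq in
theorem ex_Ef (B : Matrix (Fin (N - 2)) (Fin (N - 2)) ℝ) : ex q B * Ef q = Ef q := by
  unfold ex
  rw [Matrix.add_mul, Matrix.add_mul, Ef_Ef, E2_Ef hN hq, Matrix.mul_assoc _ (Vm N)ᴴ, Vms_Ef hq, Matrix.mul_zero, add_zero, add_zero]

include hN hq in
theorem ex_E2 (B : Matrix (Fin (N - 2)) (Fin (N - 2)) ℝ) : ex q B * E2 q = E2 q := by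
  unfold ex
  rw [Matrix.add_mul, Matrix.add_mul, Ef_E2 hN hq, E2_E2 hN, Matrix.mul_assoc _ (Vm N)ᴴ, Vms_E2 hN hq, Matrix.mul_zero, add_zero,
    zero_add]

include hN hq in
theorem ex_Vm (B : Matrix (Fin (N - 2)) (Fin (N - 2)) ℝ) : ex q B * Vm N = Vm N * toC B := by
  unfold ex
  rw [Matrix.add_mul, Matrix.add_mul, Ef_Vm hq, E2_Vm hN hq, Matrix.mul_assoc _ (Vm N)ᴴ, Vms_Vm, Matrix.mul_one, zero_add, zero_add]

include hN hq in
/-- `ex B` preserves the form. -/
theorem ex_form {B : Matrix (Fin (N - 2)) (Fin (N - 2)) ℝ} (hB : Bᵀ * JP N * B = JP N) : (ex q B)ᴴ * JJ N * ex q B = JJ N := by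
  have h1 : JJ N * ex q B = E2 q * JJ N + Ef q * JJ N + Vm N * (toC (JP N) * toC B * (Vm N)ᴴ) := by
    unfold ex
    rw [Matrix.mul_add, Matrix.mul_add, JJ_Ef hN, JJ_E2 hN]
    congr 1
    calc JJ N * (Vm N * toC B * (Vm N)ᴴ) = JJ N * Vm N * toC B * (Vm N)ᴴ := by simp only [Matrix.mul_assoc]
      _ = _ := by
          rw [JJ_Vm hN]
          simp only [Matrix.mul_assoc]
  have h2 : ex q Bᵀ * (Vm N * (toC (JP N) * toC B * (Vm N)ᴴ)) = JJ N * Em q := by
    calc ex q Bᵀ * (Vm N * (toC (JP N) * toC B * (Vm N)ᴴ)) = ex q Bᵀ * Vm N * (toC (JP N) * toC B * (Vm N)ᴴ) := by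
          simp only [Matrix.mul_assoc]
      _ = Vm N * toC (Bᵀ * JP N * B) * (Vm N)ᴴ := by
          rw [ex_Vm hN hq, toC_mul, toC_mul]
          simp only [Matrix.mul_assoc]
      _ = _ := by rw [hB, ← JJ_Vm hN, Matrix.mul_assoc, Vm_Vms hN hq]
  rw [ex_star hN, Matrix.mul_assoc, h1, Matrix.mul_add, Matrix.mul_add, h2, ← Matrix.mul_assoc, ← Matrix.mul_assoc,
    ex_Ef hN hq, ex_E2 hN hq, JJ_Em hN, ← Matrix.add_mul, ← Matrix.add_mul]
  have h3 : E2 q + Ef q + Em q = 1 := by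
    rw [← Em_add (q := q)]
    abel
  rw [h3, Matrix.one_mul]

include hN hq in
theorem mid_ex (B : Matrix (Fin (N - 2)) (Fin (N - 2)) ℝ) : mid (ex q B) = B := by
  have h1 : (Vm N)ᴴ * (ex q B * Vm N) = toC B := by rw [ex_Vm hN hq, ← Matrix.mul_assoc, Vms_Vm, Matrix.one_mul]
  ext i j
  have h2 := congrFun (congrFun h1 i) j
  rw [Vms_mul, mul_Vm] at h2
  rw [mid_apply, h2, toC_apply, Complex.ofReal_re]

include hN hq in
theorem ex_corner (B : Matrix (Fin (N - 2)) (Fin (N - 2)) ℝ) : ex q B q q = 1 := by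
  have h1 : Ef q * ex q B * Ef q = Ef q := by rw [Matrix.mul_assoc, ex_Ef hN hq, Ef_Ef]
  rw [Ef_mul_Ef hq] at h1
  have h2 := congrFun (congrFun h1 q) q
  rw [Matrix.smul_apply, Ef_eq hq, diagonal_apply_eq, if_pos rfl, smul_eq_mul, mul_one] at h2
  exact h2

include hN hq in
theorem ex_lb (B : Matrix (Fin (N - 2)) (Fin (N - 2)) ℝ) : Lb q (ex q B) := by
  have h1 : Ef q * ex q B = Ef q := by
    have h := congrArg conjTranspose (ex_Ef hN hq Bᵀ)
    rwa [conjTranspose_mul, ex_star hN, Ef_star, transpose_transpose] at h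
  unfold Lb
  rw [h1, Ef_Ee]

/-- The section of the block map. -/
noncomputable def se1 (g : OJ (JP N)) : HQ hN q :=
  ⟨(sr q).mkm (ex q (mt g)) (ex q (mt g⁻¹)) (by rw [ex_mul hN hq, mt_mul_inv, ex_one hN hq]) (ex_real _),
    (mem_MJ hN q).2 (ex_form hN hq (mt_form g)), ex_lb hN hq _⟩

theorem continuous_toC : Continuous (toC : Matrix (Fin (N - 2)) (Fin (N - 2)) ℝ → _) :=
  continuous_matrix fun i j => Complex.continuous_ofReal.comp (continuous_id.matrix_elem i j)

theorem continuous_ex : Continuous (ex q : Matrix (Fin (N - 2)) (Fin (N - 2)) ℝ → MN N) :=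
  continuous_const.add ((continuous_const.matrix_mul continuous_toC).matrix_mul continuous_const)

theorem continuous_se1 : Continuous (se1 hN hq) := by
  refine Continuous.subtype_mk (f := fun g : OJ (JP N) => (se1 hN hq g : (sr q).M)) ?_ _
  refine (sr q).continuous_to ?_ ?_
  · exact continuous_ex.comp continuous_mt
  · exact continuous_ex.comp (continuous_mt.comp continuous_inv)

theorem nbl1_se1 (g : OJ (JP N)) : nbl1 hN hq (se1 hN hq g) = g := by
  refine mt_inj ?_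
  rw [mt_nbl1]
  change sgn (ex q (mt g) q q).re • mid (ex q (mt g)) = mt g
  rw [ex_corner hN hq, mid_ex hN hq, Complex.one_re]
  unfold sgn
  rw [abs_one, div_one, one_smul]

theorem nb1_surj : Function.Surjective (nb1 hN hq) := fun g =>
  ⟨prQJ hN q (se1 hN hq g), by rw [nb1_prQJ, nbl1_se1]⟩

theorem isOpenMap_nbl1 : IsOpenMap (nbl1 hN hq) :=
  isOpenMap_of_section (nbl1 hN hq) (se1 hN hq) (continuous_se1 hN hq) (nbl1_se1 hN hq)

/-- **The block map is open.** -/
theorem isOpenMap_nb1 : IsOpenMap (nb1 hN hq) := by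
  intro W hW
  have h1 : nb1 hN hq '' W = nbl1 hN hq '' (prQJ hN q ⁻¹' W) := by
    ext x
    constructor
    · rintro ⟨y, hy, rfl⟩
      obtain ⟨g, rfl⟩ := prQJ_surj hN q y
      exact ⟨g, hy, (nb1_prQJ hN hq g).symm⟩
    · rintro ⟨g, hg, rfl⟩
      exact ⟨prQJ hN q g, hg, nb1_prQJ hN hq g⟩
  rw [h1]
  exact isOpenMap_nbl1 hN hq _ (hW.preimage (continuous_prQJ hN q))

end Pool.Agent.Helper46.OB
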