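import Pool.Agent.Helper46.OB.N1G
import Pool.Agent.Helper87.OB.N2F
import Pool.Agent.Helper87.OB.BdG
import Pool.Agent.Helper84.OB.N1A
import Pool.Agent.Helper78.OB.N1F

/-!
# Project OB (MP_0f6f3f_an), layer TZ, node 1: the final statement

`layerTZ1`: a boundary map over the stratum of the points and a direction of dimension `d`: `d ≤ (N - 2) (N - 3) / 2`.
-/

set_option autoImplicit false
set_option linter.unusedSectionVars false

open Filter Topology MeasureTheory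

namespace Pool.Agent.Helper46.OB

open Pool.Agent.Helper84 Pool.Agent.Helper84.GN Pool.Agent.Helper84.GN.S3 Pool.Agent.Helper84.GN.S3.X
open Pool.Agent.Helper84.NI Pool.Agent.Helper84.GVN Pool.Agent.Helper90.RK Pool.Agent.Helper9
open Pool.Agent.Helper66.FR Pool.Agent.Helper84.FR Pool.Agent.Helper55.FR Pool.Agent.Helper78.BM
open Pool.Agent.Helper35.FP Pool.Agent.Helper55.FP Pool.Agent.Helper78.BI Pool.Agent.Helper55.TZ Pool.Agent.Helper55.OB
open Pool.Agent.Helper96.RK (bJ chStr)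
open Pool.Agent.Helper43.TZ (PP Dir Siz Lev)
open Pool.Agent.Helper84.OB
open Pool.Agent.Helper87.OB hiding Ef_E2 E2_Ef Ef_Em Em_Ef E2_Em Em_E2 Em_Em JJ_Em Ee_E2 E2_Ee Em_Ee Ee_Em

theorem notMem_K1 {N : ℕ} {k : Fin N} : k ∉ K1 N ↔ (k : ℕ) = 0 ∨ (k : ℕ) + 2 = N := by
  unfold K1
  rw [Finset.mem_filter]
  simp only [Finset.mem_univ, true_and, not_and_or, not_not, ne_eq]

theorem bJ_K1 {N : ℕ} (hN : 5 ≤ N) {q : Fin N} (hq : (q : ℕ) = 0) (i : Fin N) : bJ (K1 N) i = 0 ↔ i ≤ q := by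
  unfold bJ
  rw [Finset.card_eq_zero, Finset.filter_eq_empty_iff, le_q_iff hq]
  constructor
  · intro h
    by_contra hi
    refine h (Finset.mem_univ q) ⟨?_, notMem_K1.2 (Or.inl hq)⟩
    rw [Fin.lt_def]
    omega
  · intro hi k _ hk
    have h1 := Fin.lt_def.1 hk.1
    omega

theorem bJ_K1' {N : ℕ} (hN : 5 ≤ N) (i : Fin N) : bJ (K1 N) i = 1 ↔ (i : ℕ) ≠ 0 ∧ (i : ℕ) + 1 ≠ N := by
  have hi := i.2
  have z0 : (0 : ℕ) < N := by omega
  have z1 : N - 2 < N := by omega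
  constructor
  · intro h
    constructor
    · intro h0
      have h1 := (bJ_K1 hN (q := ⟨0, z0⟩) rfl i).2 (by rw [Fin.le_def]; exact h0.le)
      omega
    · intro h0
      unfold bJ at h
      obtain ⟨x, hx⟩ := Finset.card_eq_one.1 h
      have a1 : (⟨0, z0⟩ : Fin N) ∈ Finset.univ.filter fun k : Fin N => k < i ∧ k ∉ K1 N := by
        rw [Finset.mem_filter]
        refine ⟨Finset.mem_univ _, ?_, notMem_K1.2 (Or.inl rfl)⟩
        rw [Fin.lt_def]
        change 0 < (i : ℕ)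
        omega
      have a2 : (⟨N - 2, z1⟩ : Fin N) ∈ Finset.univ.filter fun k : Fin N => k < i ∧ k ∉ K1 N := by
        rw [Finset.mem_filter]
        refine ⟨Finset.mem_univ _, ?_, notMem_K1.2 (Or.inr ?_)⟩
        · rw [Fin.lt_def]
          change N - 2 < (i : ℕ)
          omega
        · change N - 2 + 2 = N
          omega
      rw [hx, Finset.mem_singleton] at a1 a2
      have a3 := congrArg Fin.val (a1.trans a2.symm)
      change 0 = N - 2 at a3
      omega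
  · rintro ⟨h0, h1⟩
    unfold bJ
    rw [Finset.card_eq_one]
    refine ⟨⟨0, z0⟩, ?_⟩
    ext k
    rw [Finset.mem_filter, Finset.mem_singleton, notMem_K1, Fin.lt_def, Fin.ext_iff]
    change k ∈ Finset.univ ∧ (k : ℕ) < (i : ℕ) ∧ ((k : ℕ) = 0 ∨ (k : ℕ) + 2 = N) ↔ (k : ℕ) = 0
    have hk := k.2
    constructor
    · rintro ⟨-, h2, h3 | h3⟩
      · exact h3
      · omega
    · intro h2
      exact ⟨Finset.mem_univ _, by omega, Or.inl h2⟩

/-- the kernel of the block map -/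
theorem lt_ker {N : ℕ} (hN : 5 ≤ N) {q : Fin N} (hq : (q : ℕ) = 0) {g : HQ hN q} (hg : nbl1 hN hq g = 1) :
    Lt ((sr q).mt (g : (sr q).M)) := by
  obtain ⟨e, he⟩ := nbl1_ker hN hq hg
  intro i j hij
  have hij' := Fin.lt_def.1 hij
  by_cases h0 : (i : ℕ) = 0
  · have : i = q := Fin.ext (by rw [h0, hq])
    rw [this]
    exact row0 hq g.2.2 (by omega)
  by_cases h1 : (j : ℕ) + 1 = N
  · have : j = lst hN := Fin.ext (by change (j : ℕ) = N - 1; omega)
    rw [this]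
    exact col1 hN hq g (by omega)
  obtain ⟨i', rfl⟩ := exists_em h0 (by have := j.2; omega)
  obtain ⟨j', rfl⟩ := exists_em (k := j) (by omega) h1
  have hne : i' ≠ j' := by
    rintro rfl
    exact lt_irrefl _ hij
  have h2 := congrFun (congrFun he i') j'
  rw [mid_apply, Matrix.smul_apply, Matrix.one_apply_ne hne, smul_zero] at h2
  rw [← re_real ((sr q).σ_mt (g : (sr q).M)), h2, Complex.ofReal_zero]

theorem amnG1 {G : Type} [Group G] {N : ℕ} {P : PH G N} {S : Sv P} (h : SO2 P S) {q : Fin N} (hq : (q : ℕ) = 0) {T : Str S}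
    (F : Frm (geo1 h.hN hq) T) (hF : F.ir = irJ h q) : AmnG F := by
  refine amn_of h F (fun g => by rw [hF]; rfl) fun y hy => ?_
  obtain ⟨g, rfl⟩ := prQJ_surj h.hN q y
  have h1 : nbl1 h.hN hq g = 1 := by
    rw [← nb1_prQJ]
    exact hy
  exact ⟨⟨g, g.2.1⟩, rfl, lt_ker h.hN hq h1⟩

variable {G1 X G : Type} [Group G1] [TopologicalSpace G1] [IsTopologicalGroup G1] [MeasurableSpace X] [MulAction G1 X]
  [MeasurableConstSMul G1 X] [Group G] {μ : Measure X} [SMulInvariantMeasure G1 X μ]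
  [IsProbabilityMeasure μ] {N : ℕ} {P : PH G N} {S : Sv P}

/-- **Layer TZ, points.** -/
theorem layerTZ1 {Γ : Subgroup G1} [Countable Γ] {a : Cocy G1 X Γ} {E : Emb Γ G} (hS : SO2 P S) {b : ℕ → G1}
    (B : BMap μ a E (R1 S) (pd1 S) b) (h3 : Tendsto (fun g : G1 => μ {x | a.a g x ≠ 1}) (𝓝 1) (𝓝 0)) (hK : Kcont G1 μ)
    (hE : ErgU μ a E (Ctr b)) {F1 : Subgroup G1} {par : G1 → ℝ} {d : ℕ} (D : Dir G1 F1 par d) (hbF : ∀ n, b n ∈ F1)
    (hbp : Tendsto (fun n => par (b n)) (hyperfilter ℕ : Filter ℕ) atTop)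
    (σ : X → G1) (hσ : ∀ B : Set G1, MeasurableSet[borel G1] B → MeasurableSet (σ ⁻¹' B))
    (hσa : ∀ (g : G1) (x : X), g * σ x = σ (g • x) * (a.a g x : G1)) : d ≤ (N - 2) * (N - 3) / 2 := by
  obtain ⟨q, hq⟩ : ∃ q : Fin N, (q : ℕ) = 0 := ⟨⟨0, by have := hS.hN; omega⟩, rfl⟩
  have hb : ∀ i, (chStr S (K1 N) []).b i = 0 ↔ i ≤ q := fun i => bJ_K1 hS.hN hq i
  have hb1 : ∀ i, (chStr S (K1 N) []).b i = 1 ↔ (i : ℕ) ≠ 0 ∧ (i : ℕ) + 1 ≠ N := fun i => bJ_K1' hS.hN i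
  obtain ⟨ν, i1, i2, z, hz⟩ := exists_haarO (JP_tr hS.hN) (JP_sq hS.hN)
  by_contra hd
  refine contraG ν (geo := geo1 hS.hN hq) (T := chStr S (K1 N) []) (isClosed_QJ hS.hN q) isCompact_KO
    (isOpenMap_nb1 hS.hN hq) (Pool.Agent.Helper78.OB.frm1 hS hq _ hb hb1) (amnG1 hS hq _ rfl) B h3 hK hE D hbF hbp σ hσ hσa z ?_
  have h1 : N - 2 - 1 = N - 3 := by omega
  rw [h1] at hz
  omega

end Pool.Agent.Helper46.OB
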